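import Pool.Agent.Q156.AW.A8

/-!
Primes `|F(n) + a|`, `F` quadratic (for instance `n² + a`), `n` in an arbitrary set of integers, or
weighted with arbitrary bounded weights: for almost all `a`, in all windows, only the primes up to a
power of `log x` matter.

Method: the second moment over all `a` of `∑ w(n) f(F(n) + a)`, `f` the primes minus their sieve
model, is at most a square root of the number of pairs of arguments times a square root of the sum
of `R(F(n) - F(n'))²`, `R` the autocorrelation of `f` (Cauchy and Schwarz). The squares `R²` are sums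
of autocorrelations of the functions `f(v) f(v + l)`, so the inverse theorem for Weyl sums of
`Pool/Agent/TH204/WR` applies to them.
-/

set_option autoImplicit false

namespace Pool.Agent.Results.MP_391708_nt.ArbitrarySets

open Finset
open scoped Polynomial

/-- the sum of `w n` over the `n` in `(u, v]` for which `|F(n) + a|` is a prime -/
noncomputable def primeSum (F : ℤ[X]) (a : ℤ) (w : ℤ → ℝ) (u v : ℤ) : ℝ :=
  ∑ n ∈ (Ioc u v).filter (fun n => (F.eval n + a).natAbs.Prime), w n

open Classical in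
/-- the sum of `w n / log |F(n) + a|` over the `n` in `(u, v]` for which `F(n) + a` has no prime
factor `p ≤ z`, divided by the product of `1 - 1 / p` over the primes `p ≤ z` -/
noncomputable def sieveSum (F : ℤ[X]) (a : ℤ) (z : ℕ) (w : ℤ → ℝ) (u v : ℤ) : ℝ :=
  (∏ p ∈ (Icc 1 z).filter Nat.Prime, (1 - 1 / (p : ℝ)))⁻¹ *
    ∑ n ∈ (Ioc u v).filter (fun n => ∀ p : ℕ, p.Prime → p ≤ z → ¬ (p : ℤ) ∣ F.eval n + a),
      w n / Real.log |((F.eval n + a : ℤ) : ℝ)|

/-- Let `F` be an integer polynomial of degree `2`, for instance `n²`. For all `U`, `C`, `K` there are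
`B`, `E₀` such that for all `E ≥ E₀`, all large `x` and all weights `w i n` in `[-1, 1]` (for
instance the indicator functions of arbitrary sets of integers) all integers `a` with `|a| ≤ x`
but at most `x / (log x)^U` have the following property. For all `i ≤ (log x)^K`, both signs `s`
and all windows `(u, v]` of length at least `(log x)^B` on which `s (F(n) + a)` lies between `2`
and `(v - u) √x (log x)^C`, the weighted number of the `n` in the window with `|F(n) + a|` prime
differs from its sieve prediction with the primes `p ≤ z = (log x)^E` by at most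
`(v - u) / (log x)^U`. -/
theorem result (F : ℤ[X]) (hF : F.natDegree = 2) (U C K : ℕ) :
    ∃ B E₀ : ℕ, ∀ E : ℕ, E₀ ≤ E → ∃ X₀ : ℕ, ∀ x : ℕ, X₀ ≤ x →
    ∀ w : ℕ → ℤ → ℝ, (∀ i n, |w i n| ≤ 1) →
    ∃ Bad ⊆ Icc (-(x : ℤ)) x, (#Bad : ℝ) ≤ x / Real.log x ^ U ∧
    ∀ a ∈ Icc (-(x : ℤ)) x, a ∉ Bad → ∀ i : ℕ, (i : ℝ) ≤ Real.log x ^ K →
    ∀ s : ℤ, (s = 1 ∨ s = -1) → ∀ u v : ℤ, Real.log x ^ B ≤ (v : ℝ) - u →
      (∀ n ∈ Ioc u v, 2 ≤ s * (F.eval n + a) ∧
        ((s * (F.eval n + a) : ℤ) : ℝ) ≤ ((v : ℝ) - u) * (√(x : ℝ) * Real.log x ^ C)) →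
      |primeSum F a (w i) u v - sieveSum F a ⌊Real.log x ^ E⌋₊ (w i) u v| ≤
        ((v : ℝ) - u) / Real.log x ^ U := by
  obtain ⟨B, E₀, h⟩ := Pool.Agent.Q156.AW.both_signs 1 le_rfl F hF U C K
  refine ⟨B, E₀, fun E hE => ?_⟩
  obtain ⟨X₀, h⟩ := h E hE
  refine ⟨X₀, fun x hx w hw => ?_⟩
  obtain ⟨Bad, h1, h2, h3⟩ := h x hx w hw
  refine ⟨Bad, h1, h2, fun a ha haB i hi s hs u v huv hv => ?_⟩
  have hrt : Pool.Agent.TH204.WR.rt 1 x ^ 1 = √(x : ℝ) := by
    unfold Pool.Agent.TH204.WR.rt
    rw [pow_one, Real.sqrt_eq_rpow]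
    norm_num
  exact h3 a ha haB i hi s hs u v huv (by rw [hrt]; exact hv)

end Pool.Agent.Results.MP_391708_nt.ArbitrarySets
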