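import Pool.Agent.Q145.LQ.All
import Pool.Agent.Q53.LQ.CHT

set_option autoImplicit false
set_option maxHeartbeats 4000000

/-!
# Prime values of almost all long systems of quadratic polynomials

For quadratic polynomials `q_1, ..., q_K` with integer coefficients, of size between `Y²` and `Q Y²` on `(Y, 2 Y]`,
and constants `1 ≤ s_i ≤ H_i` (`H_i` the size of `q_i`), let `N_s` be the number of integers `Y < n ≤ 2 Y` for which
`q_1(n) + s_1, ..., q_K(n) + s_K` are all prime, e.g. `n² + a_1, ..., n² + a_K` or `N_1 - n², ..., N_K - n²`. The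
formula of Hardy-Littlewood and Bateman-Horn `N_s ~ 𝔖(s) Y / (log H_1 ... log H_K)`, with the full singular series, is
proved for almost all admissible `s`, for systems whose length and leading coefficients grow with `Y`, up to a bound `Q`:

* for every `Y` and `Q = A log log Y`;
* for arbitrarily large `Y` and `Q = c log Y / log log Y` (for `K ≥ (1 + δ) log Y / log log Y` the expected number tends
  to `0`);
* for every `Y` and `Q = c log Y / log log Y`, unless there is an exceptional zero.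
-/

namespace Pool.Agent.Results.MP_391708_nt.LongQuadraticSystems

open Finset Filter Polynomial

open scoped Classical

/-- For a prime `p`: the number of classes `n` modulo `p` for which `p` divides one of the `q_i(n) + s_i`. -/
def classes {K : ℕ} (q : Fin K → ℤ[X]) (s : Fin K → ℕ) (p : ℕ) : ℕ :=
  ((range p).filter fun n : ℕ => ∃ i, (p : ℤ) ∣ (q i).eval (n : ℤ) + s i).card

/-- The product of the `q_i + s_i` has no fixed prime divisor. -/
def Admissible {K : ℕ} (q : Fin K → ℤ[X]) (s : Fin K → ℕ) : Prop := ∀ p : ℕ, p.Prime → classes q s p < p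

/-- The partial products (primes up to `w`) of the singular series of the system `q_i + s_i`. -/
noncomputable def partialSeries {K : ℕ} (q : Fin K → ℤ[X]) (s : Fin K → ℕ) (w : ℕ) : ℝ :=
  ∏ p ∈ (Icc 1 w).filter Nat.Prime, (1 - (classes q s p : ℝ) / p) / (1 - 1 / (p : ℝ)) ^ K

/-- The singular series: the limit of the partial products. -/
noncomputable def series {K : ℕ} (q : Fin K → ℤ[X]) (s : Fin K → ℕ) : ℝ := limUnder atTop (partialSeries q s)

/-- The number of integers `Y < n ≤ 2 Y` for which all the `q_i(n) + s_i` are prime. -/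
def count {K : ℕ} (Y : ℕ) (q : Fin K → ℤ[X]) (s : Fin K → ℕ) : ℕ :=
  ((Ioc Y (2 * Y)).filter fun n : ℕ => ∀ i, ((q i).eval (n : ℤ) + s i).toNat.Prime).card

/-- The admissible `s` with `1 ≤ s_i ≤ H_i`. -/
noncomputable def constants {K : ℕ} (H : Fin K → ℕ) (q : Fin K → ℤ[X]) : Finset (Fin K → ℕ) :=
  (Fintype.piFinset fun i => Icc 1 (H i)).filter (Admissible q)

/-- The `q_i` are quadratic polynomials with leading coefficients at most `Q` in absolute value and
`5 H_i / 4 < q_i(n) ≤ 2 H_i` for `Y < n ≤ 2 Y`, where `Y² ≤ H_i ≤ Q Y²`. -/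
structure Shapes (Q Y : ℕ) {K : ℕ} (H : Fin K → ℕ) (q : Fin K → ℤ[X]) : Prop where
  deg : ∀ i, (q i).natDegree = 2
  lead : ∀ i, |(q i).leadingCoeff| ≤ Q
  scale : ∀ i, Y ^ 2 ≤ H i ∧ H i ≤ Q * Y ^ 2
  val : ∀ i, ∀ n ∈ Ioc Y (2 * Y), 5 * (H i : ℤ) < 4 * (q i).eval (n : ℤ) ∧ (q i).eval (n : ℤ) ≤ 2 * H i

/-- For all but a proportion at most `ε` of the admissible `s` the singular series converges to a positive number
`𝔖(s)` and `count = 𝔖(s) Y / ∏ log H_i`, with a relative error at most `ε`. -/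
def Formula {K : ℕ} (Y : ℕ) (H : Fin K → ℕ) (q : Fin K → ℤ[X]) (ε : ℝ) : Prop :=
  (((constants H q).filter fun s => ¬ (0 < series q s ∧ Tendsto (partialSeries q s) atTop (nhds (series q s)) ∧
    |count Y q s * ∏ i, Real.log (H i) - series q s * Y| ≤ ε * (series q s * Y))).card : ℝ) ≤
      ε * (constants H q).card

/-- The formula for all systems of shapes of length at most `Q`, with leading coefficients at most `Q`. -/
def Holds (Y Q : ℕ) (ε : ℝ) : Prop := ∀ K : ℕ, K ≤ Q → ∀ (H : Fin K → ℕ) (q : Fin K → ℤ[X]), Shapes Q Y H q → Formula Y H q ε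

/-- There is no exceptional zero at the scale `Y`: the real zeros `β` of the primitive quadratic
characters of conductor `1 < r ≤ exp (log Y / log log Y)` are at most `1 - C log log Y / log Y`. -/
def NoExceptionalZero (C : ℝ) (Y : ℕ) : Prop :=
  ∀ (r : ℕ) [NeZero r], 1 < r → (r : ℝ) ≤ Real.exp (Real.log Y / Real.log (Real.log Y)) →
    ∀ χ : DirichletCharacter ℂ r, χ.IsPrimitive → χ ^ 2 = 1 → ∀ β : ℝ, χ.LFunction β = 0 →
      β ≤ 1 - C * (Real.log (Real.log Y) / Real.log Y)

open Pool.Agent.Q145.LQ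

theorem sys_of {Q Q' Y K : ℕ} {H : Fin K → ℕ} {q : Fin K → ℤ[X]} (h : Shapes Q Y H q) (hQ : Q ≤ Q') : Sys 2 Q' Y (Y ^ 2) H q where
  deg := fun i => by rw [h.deg i]; norm_num
  lead := fun i => by
    have := h.lead i
    rw [Int.abs_eq_natAbs] at this
    have h2 : (q i).leadingCoeff.natAbs ≤ Q := by exact_mod_cast this
    exact h2.trans hQ
  scale := fun i => ⟨(h.scale i).1, (h.scale i).2.trans (Nat.mul_le_mul_right _ hQ)⟩
  val := h.val

theorem formula_of {K Q Y : ℕ} {H : Fin K → ℕ} {q : Fin K → ℤ[X]} (hS : Shapes Q Y H q) {ε : ℝ} (h : HLC Y H q ε) : Formula Y H q ε := by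
  unfold HLC at h
  unfold Formula
  have h2 : ∀ s, count Y q s = cntQ Y q s := by
    intro s
    unfold count cntQ
    congr 1
    apply filter_congr
    intro n hn
    refine forall_congr' fun i => ?_
    have h0 := (sys_of hS le_rfl).nonneg i hn
    have e : ((q i).eval (n : ℤ) + s i).toNat = vq (q i) n + s i := by
      unfold vq
      omega
    rw [e]
  simp only [h2]
  exact h

theorem holds_of {Y Q : ℕ} {ε : ℝ} (h : PQC Y (6 * (Q + 1)) ε) : Holds Y Q ε := by
  intro K hK H q hS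
  exact formula_of hS (h K H q (by omega) (sys_of hS (by omega)) hS.deg)

theorem absorb {f : ℕ → ℝ} {Y : ℕ} {B : ℝ} {Q : ℕ} (hf : 12 ≤ B * f Y) (hQ : (Q : ℝ) ≤ B / 12 * f Y) : ((6 * (Q + 1) : ℕ) : ℝ) ≤ B * f Y := by
  push_cast
  linarith

theorem shape1 (Q Y K : ℕ) (hQ : 4 ≤ Q) : Shapes Q Y (fun _ : Fin K => 4 * Y ^ 2) (fun _ => X ^ 2 + C (4 * (Y : ℤ) ^ 2)) where
  deg := fun _ => by compute_degree!
  lead := fun _ => by
    have : (X ^ 2 + C (4 * (Y : ℤ) ^ 2) : ℤ[X]).natDegree = 2 := by compute_degree!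
    unfold leadingCoeff
    rw [this, coeff_add, coeff_X_pow, coeff_C]
    simp
    omega
  scale := fun _ => ⟨by nlinarith [sq_nonneg Y], Nat.mul_le_mul_right _ hQ⟩
  val := fun _ n hn => by
    rw [mem_Ioc] at hn
    obtain ⟨h1, h2⟩ := hn
    have h1' : (Y : ℤ) + 1 ≤ n := by exact_mod_cast h1
    have h2' : (n : ℤ) ≤ 2 * Y := by exact_mod_cast h2
    have h0 : (0 : ℤ) ≤ Y := by positivity
    simp only [eval_add, eval_pow, eval_X, eval_C]
    push_cast
    constructor <;> nlinarith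

theorem shape2 (Q Y K : ℕ) (hQ : 4 ≤ Q) : Shapes Q Y (fun _ : Fin K => 4 * Y ^ 2) (fun _ => C (9 * (Y : ℤ) ^ 2 + 1) - X ^ 2) where
  deg := fun _ => by compute_degree!
  lead := fun _ => by
    have : (C (9 * (Y : ℤ) ^ 2 + 1) - X ^ 2 : ℤ[X]).natDegree = 2 := by compute_degree!
    unfold leadingCoeff
    rw [this, coeff_sub, coeff_X_pow, coeff_C]
    simp
    omega
  scale := fun _ => ⟨by nlinarith [sq_nonneg Y], Nat.mul_le_mul_right _ hQ⟩
  val := fun _ n hn => by
    rw [mem_Ioc] at hn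
    obtain ⟨h1, h2⟩ := hn
    have h1' : (Y : ℤ) + 1 ≤ n := by exact_mod_cast h1
    have h2' : (n : ℤ) ≤ 2 * Y := by exact_mod_cast h2
    have h0 : (0 : ℤ) ≤ Y := by positivity
    simp only [eval_sub, eval_pow, eval_X, eval_C]
    push_cast
    constructor <;> nlinarith

/-- **Theorem.** (0) Examples of shapes: `x² + 4 Y²` (the systems `n² + a_i`, `4 Y² < a_i ≤ 8 Y²`) and `9 Y² + 1 - x²`
(the systems `N_i - n²`, `9 Y² + 1 < N_i ≤ 13 Y² + 1`). If the `q_i + s_i` are quadratic, pairwise not proportional, their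
discriminants are not squares and the system is admissible, then the singular series converges to a positive number.
(1) For every large `Y` the formula holds for all systems of shapes with `K` and the leading coefficients at most
`A log log Y`. (2) For arbitrarily large `Y` it holds up to `c log Y / log log Y`. (3) For every large `Y` it holds up to
`c log Y / log log Y`, unless there is an exceptional zero at the scale `Y`. -/
theorem result :
    ((∀ Q Y K : ℕ, 4 ≤ Q → Shapes Q Y (fun _ : Fin K => 4 * Y ^ 2) (fun _ => X ^ 2 + C (4 * (Y : ℤ) ^ 2)) ∧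
        Shapes Q Y (fun _ : Fin K => 4 * Y ^ 2) (fun _ => C (9 * (Y : ℤ) ^ 2 + 1) - X ^ 2)) ∧
      (∀ (K : ℕ) (q : Fin K → ℤ[X]) (s : Fin K → ℕ), (∀ i, (q i).natDegree = 2) →
        (∀ i, ¬ IsSquare ((q i).coeff 1 ^ 2 - 4 * (q i).coeff 2 * ((q i).coeff 0 + s i))) →
        (∀ i j, i ≠ j → ¬ ∃ a b : ℤ, a ≠ 0 ∧ b ≠ 0 ∧ C a * (q i + C (s i : ℤ)) = C b * (q j + C (s j : ℤ))) →
        Admissible q s → Tendsto (partialSeries q s) atTop (nhds (series q s)) ∧ 0 < series q s)) ∧
    (∀ A ε : ℝ, 0 < ε → ∀ᶠ Y : ℕ in atTop, ∀ Q : ℕ, (Q : ℝ) ≤ A * Real.log (Real.log Y) → Holds Y Q ε) ∧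
    (∃ c : ℝ, 0 < c ∧ ∀ ε : ℝ, 0 < ε → ∃ᶠ Y : ℕ in atTop, ∀ Q : ℕ,
      (Q : ℝ) ≤ c * (Real.log Y / Real.log (Real.log Y)) → Holds Y Q ε) ∧
    (∃ c C : ℝ, 0 < c ∧ 0 < C ∧ ∀ ε : ℝ, 0 < ε → ∀ᶠ Y : ℕ in atTop, NoExceptionalZero C Y →
      ∀ Q : ℕ, (Q : ℝ) ≤ c * (Real.log Y / Real.log (Real.log Y)) → Holds Y Q ε) := by
  have hLL : Tendsto (fun Y : ℕ => Real.log Y / Real.log (Real.log Y)) atTop atTop := by
    have h1 : Tendsto (fun x : ℝ => x / Real.log x) atTop atTop := by
      have h2 : Tendsto (fun x : ℝ => Real.log x / x) atTop (nhdsWithin 0 (Set.Ioi 0)) := by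
        rw [tendsto_nhdsWithin_iff]
        refine ⟨?_, ?_⟩
        · have := Real.isLittleO_log_id_atTop.tendsto_div_nhds_zero
          simpa using this
        · filter_upwards [eventually_gt_atTop 1] with x hx
          have := Real.log_pos hx
          exact div_pos this (by linarith)
      refine (tendsto_inv_nhdsGT_zero.comp h2).congr fun x => ?_
      simp
    exact h1.comp Pool.Agent.Q145.SZ.log_tendsto
  refine ⟨⟨fun Q Y K hQ => ⟨shape1 Q Y K hQ, shape2 Q Y K hQ⟩, fun K q s h1 h2 h3 h4 => t_CONVQ K q s h1 h2 h3 h4⟩, ?_, ?_, ?_⟩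
  · intro A ε hε
    filter_upwards [mainA1 t_CHT (12 * |A| + 12) ε hε, Pool.Agent.Q145.SZ.ll_tendsto.eventually_ge_atTop 1] with Y h hY Q hQ
    apply holds_of
    apply h
    have h1 : A * Real.log (Real.log Y) ≤ |A| * Real.log (Real.log Y) := mul_le_mul_of_nonneg_right (le_abs_self A) (by linarith)
    have h2 : 0 ≤ |A| * Real.log (Real.log Y) := mul_nonneg (abs_nonneg A) (by linarith)
    push_cast
    nlinarith
  · obtain ⟨c, hc, h⟩ := mainA2 t_CHT
    refine ⟨c / 12, by positivity, fun ε hε => ?_⟩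
    refine ((h ε hε).and_eventually (hLL.eventually_ge_atTop (12 / c))).mono ?_
    rintro Y ⟨h1, h2⟩ Q hQ
    apply holds_of
    apply h1
    rw [div_le_iff₀ hc] at h2
    push_cast
    linarith
  · obtain ⟨c, C, hc, hC, h⟩ := mainA3 t_CHT
    refine ⟨c / 12, C, by positivity, hC, fun ε hε => ?_⟩
    filter_upwards [h ε hε, hLL.eventually_ge_atTop (12 / c)] with Y h1 h2 hne Q hQ
    apply holds_of
    apply h1 hne
    rw [div_le_iff₀ hc] at h2
    push_cast
    linarith

end Pool.Agent.Results.MP_391708_nt.LongQuadraticSystems
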