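import Mathlib
import Pool.Agent.Q91.RP.Fin

/-!
Rough values of `n ^ 2 + a` in the even class of an arbitrary completely multiplicative sign.
-/

set_option autoImplicit false
set_option maxHeartbeats 400000

namespace Pool.Agent.Results.MP_391708_nt.RoughParity

open Finset Pool.Agent.Q91.RP

/-- `g` is completely multiplicative on the positive integers, with values `1` and `-1` -/
def SignFunction (g : ℕ → ℤ) : Prop :=
  (∀ n : ℕ, n ≠ 0 → g n = 1 ∨ g n = -1) ∧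
    ∀ m n : ℕ, m ≠ 0 → n ≠ 0 → g (m * n) = g m * g n

/-- `M` has at most `K` prime factors, counted with multiplicity, all larger than `X ^ (1 / K)` -/
def Rough (K X M : ℕ) : Prop :=
  M.primeFactorsList.length ≤ K ∧ ∀ p : ℕ, p.Prime → p ∣ M → X < p ^ K

open Classical in
/-- the `1 ≤ n ≤ X` with `n ^ 2 + a = r * M`, `M` rough, `g M = e` -/
noncomputable def T (a : ℤ) (r K X : ℕ) (g : ℕ → ℤ) (e : ℤ) : Finset ℕ :=
  (Icc 1 X).filter (fun n : ℕ => ∃ M : ℕ, (n : ℤ) ^ 2 + a = (r : ℤ) * M ∧ g M = e ∧ Rough K X M)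

open Classical in
/-- the `1 ≤ n ≤ X` with `n ^ 2 + a` positive, `g (n ^ 2 + a) = 1` and `n ^ 2 + a = r * M`, where
`M` is rough and `r` is `1` or `s` -/
noncomputable def E (a : ℤ) (s K X : ℕ) (g : ℕ → ℤ) : Finset ℕ :=
  (Icc 1 X).filter (fun n : ℕ => 0 < (n : ℤ) ^ 2 + a ∧ g ((n : ℤ) ^ 2 + a).toNat = 1 ∧
    ∃ r M : ℕ, (r = 1 ∨ r = s) ∧ (n : ℤ) ^ 2 + a = (r : ℤ) * M ∧ Rough K X M)

theorem result : ∃ K : ℕ, ∀ a : ℤ, ∃ i j X0 : ℕ, ∀ X : ℕ, X0 ≤ X → ∀ g : ℕ → ℤ, SignFunction g →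
    (∃ e f : ℤ, (e = 1 ∨ e = -1) ∧ (f = 1 ∨ f = -1) ∧
      (X : ℝ) / Real.log X ^ K ≤ ((T a 1 K X g e).card : ℝ) ∧
      (X : ℝ) / Real.log X ^ K ≤ ((T a (2 ^ i * 3 ^ j) K X g f).card : ℝ) ∧
      (X : ℝ) / Real.log X ^ K ≤ ((T a (2 ^ i * 3 ^ j) K X g (e * f)).card : ℝ)) ∧
    (X : ℝ) / Real.log X ^ K ≤ ((E a (2 ^ i * 3 ^ j) K X g).card : ℝ) := by
  obtain ⟨K, hK⟩ := engine_shift
  refine ⟨K, ?_⟩
  intro a
  have hc : 1 ≤ ((a.natAbs + 1 : ℕ) : ℤ) ^ 2 + a := by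
    have h1 : (((a.natAbs + 1 : ℕ) : ℤ)) = |a| + 1 := by push_cast; rfl
    rw [h1]
    have h2 := abs_nonneg a
    have h3 := neg_abs_le a
    nlinarith
  obtain ⟨i, j, w, D⟩ := loc_gen (b := 2 * ((a.natAbs + 1 : ℕ) : ℤ))
    (c := ((a.natAbs + 1 : ℕ) : ℤ) ^ 2 + a) (by positivity) hc (by
      rintro ⟨h, -⟩
      exact (Int.not_even_iff_odd.2 h) (even_two_mul _))
  obtain ⟨X0, hX0⟩ := hK _ _ _ _ _ D (fun n => (n : ℤ) ^ 2 + a) (a.natAbs + 1) (by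
    intro N
    unfold Pool.Agent.H505R2.fm
    push_cast
    ring)
  refine ⟨i, j, X0, ?_⟩
  intro X hX g hg
  obtain ⟨⟨e, f, he, hf, h1, h2, h3⟩, h4⟩ := hX0 X hX g ⟨hg.1, hg.2⟩
  refine ⟨⟨e, f, he, hf, ?_, ?_, ?_⟩, ?_⟩
  · exact h1
  · exact h2
  · exact h3
  · exact h4

end Pool.Agent.Results.MP_391708_nt.RoughParity
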