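import Pool.Agent.Q253.Cov.Quad
import Pool.Agent.Y882.MG.Quad2
import Pool.Agent.Y882.KW.Num

/-!
# The numbers `n ^ 2 + a` with one prime factor from a thin set

For every `ε > 0` there is ONE set `Q` of primes with `O(log ^ 3 x)` elements up to `x` such that (1) for all but at most `X ^ (5/3 + ε)`
of the integers `|a| ≤ X ^ 2` the numbers `|n ^ 2 + a|`, `n ≤ X`, are primes with at least the expected frequency, or for one `q ∈ Q`
they are `q` times a prime with at least the expected frequency; (2) for EVERY `a`, `-a` not a square, and all large `X` the same holds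
with `q` times a number with at most two prime factors.

Libraries (starting files): `Y882.PY.engine` (almost primes for all but few constant terms), `Y882.MG.finAll` (weighted sieve for
`n ^ 2 + a`), `W378.DC.MP` (Mertens).
-/

set_option autoImplicit false

namespace Pool.Agent.Results.MP_391708_nt.ThinFactors

open Finset Filter
open Pool.Agent.Q253.Cov (qv Zq Zq_ro Zq_sys Zq_card_lt quad_thin)
open Pool.Agent.Q253.Thin (VZ_low)
open Pool.Agent.Y843.HS (Pr VV)

/-- the number of the classes `n` modulo `q` with `q ∣ n ^ 2 + a` -/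
def rho (a : ℤ) (q : ℕ) : ℕ := ((range q).filter (fun n : ℕ => (q : ℤ) ∣ (n : ℤ) ^ 2 + a)).card

/-- the product of the `1 - rho a p / p` over the primes `p ≤ X` -/
noncomputable def dens (a : ℤ) (X : ℕ) : ℝ := ∏ p ∈ (Icc 1 X).filter Nat.Prime, (1 - (rho a p : ℝ) / p)

/-- the number of the `1 ≤ n ≤ X` with `|n ^ 2 + a|` prime -/
def primeValues (a : ℤ) (X : ℕ) : ℕ := ((Icc 1 X).filter (fun n : ℕ => ((n : ℤ) ^ 2 + a).natAbs.Prime)).card

open Classical in
/-- the number of the `1 ≤ n ≤ X` with `|n ^ 2 + a| = q m`, `m` having at most `r` prime factors (with multiplicity), all `≥ q` -/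
noncomputable def withFactor (a : ℤ) (q r X : ℕ) : ℕ :=
  ((Icc 1 X).filter (fun n : ℕ => ∃ m : ℕ, 2 ≤ m ∧ ((n : ℤ) ^ 2 + a).natAbs = q * m ∧ m.primeFactorsList.length ≤ r ∧
    ∀ p : ℕ, p.Prime → p ∣ m → q ≤ p)).card

lemma rho_eq (a : ℤ) (q : ℕ) : rho a q = (Zq a q).card := by
  unfold rho Zq qv
  congr 1
  apply filter_congr
  intro n _
  exact Int.natCast_dvd

lemma dens_eq (a : ℤ) (X : ℕ) : dens a X = VV (Zq a) 0 X := by
  unfold dens VV Pr
  have h : (Icc 1 X).filter Nat.Prime = (Ioc 0 X).filter Nat.Prime := by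
    ext p
    simp only [mem_filter, mem_Icc, mem_Ioc]
    constructor
    · rintro ⟨⟨h1, h2⟩, h3⟩
      exact ⟨⟨by omega, h2⟩, h3⟩
    · rintro ⟨⟨h1, h2⟩, h3⟩
      exact ⟨⟨by omega, h2⟩, h3⟩
  rw [h]
  apply prod_congr rfl
  intro p _
  rw [rho_eq]

open Classical in
/-- the sieved sets: `t = 0`: prime factors `> (2 X ^ 2) ^ (1/3)`, `t = 1`: at most three prime factors, all `≥ X ^ (1/6)` -/
noncomputable def GS (t : Bool) (X : ℕ) (a : ℤ) : Finset ℕ :=
  (Icc 1 X).filter (fun n : ℕ => 2 ≤ qv a n ∧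
    (t = false → ∀ q : ℕ, q.Prime → q ∣ qv a n → 2 * X ^ 2 < q ^ 3) ∧
    (t = true → (qv a n).primeFactorsList.length ≤ 3 ∧ ∀ q : ℕ, q.Prime → q ∣ qv a n → (X : ℝ) ^ (1 / 6 : ℝ) ≤ q))

open Classical in
theorem family (ε : ℝ) (hε : 0 < ε) : ∃ δ : ℝ, 0 < δ ∧ ∃ X₀ : ℕ, ∀ X : ℕ, X₀ ≤ X → ∃ E : Finset ℤ, (E.card : ℝ) ≤ (X : ℝ) ^ (5 / 3 + ε) ∧
    ∀ a : ℤ, |a| ≤ (X : ℤ) ^ 2 → a ∉ E → δ * (X * dens a X) ≤ ((GS false X a).card : ℝ) := by
  obtain ⟨η, hη⟩ : ∃ η, η = min (ε / 20) (1 / 100) := ⟨_, rfl⟩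
  have hη0 : 0 < η := by rw [hη]; positivity
  have hη1 : η ≤ ε / 20 := by rw [hη]; exact min_le_left _ _
  have hη2 : η ≤ 1 / 100 := by rw [hη]; exact min_le_right _ _
  obtain ⟨δ, hδ, Y0, H⟩ := Pool.Agent.Y882.PY.engine 2 (1 / 2) (1 / 3 + η) 1 η (by norm_num) (by positivity) (by linarith) (by norm_num)
    le_rfl hη0
  have ev1 : ∀ᶠ X : ℕ in atTop, (3 : ℝ) ≤ (X : ℝ) ^ (ε / 2) :=
    ((tendsto_rpow_atTop (by linarith)).comp tendsto_natCast_atTop_atTop).eventually_ge_atTop _
  have ev2 : ∀ᶠ X : ℕ in atTop, (3 : ℝ) ≤ (X : ℝ) ^ (6 * η) :=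
    ((tendsto_rpow_atTop (by linarith)).comp tendsto_natCast_atTop_atTop).eventually_ge_atTop _
  obtain ⟨X1, hX1⟩ := eventually_atTop.1 (ev1.and ev2)
  refine ⟨δ, hδ, max (max Y0 X1) 2, ?_⟩
  intro X hX
  have hXY : Y0 ≤ X := ((le_max_left _ _).trans (le_max_left _ _)).trans hX
  obtain ⟨e1, e2⟩ := hX1 X (((le_max_right _ _).trans (le_max_left _ _)).trans hX)
  have hX2 : 2 ≤ X := (le_max_right _ _).trans hX
  have hXr : (2 : ℝ) ≤ X := by exact_mod_cast hX2
  have hX0 : (0 : ℝ) < X := by linarith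
  have hX1r : (1 : ℝ) ≤ X := by linarith
  have hpow : ∀ s : ℝ, ((X ^ 2 : ℕ) : ℝ) ^ s = (X : ℝ) ^ (2 * s) := by
    intro s
    push_cast
    rw [← Real.rpow_natCast, ← Real.rpow_mul hX0.le]
    norm_num
  have hβ : ((X ^ 2 : ℕ) : ℝ) ^ (1 / 2 : ℝ) ≤ X := by
    rw [hpow]
    norm_num
  have h1 := H (X ^ 2) (by nlinarith) (Polynomial.X ^ 2) (X ^ 2) X X (by rw [Polynomial.natDegree_X_pow]; norm_num) (by
    unfold Pool.Agent.Y882.PX.KF
    rw [Polynomial.natDegree_X_pow, Polynomial.leadingCoeff_X_pow]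
    simp) (by rw [Real.rpow_one]) hβ hβ
  refine ⟨(Icc (-((X ^ 2 : ℕ) : ℤ)) ((X ^ 2 : ℕ) : ℤ)).filter (fun k =>
      ((Pool.Agent.Y882.PY.goodz (Polynomial.X ^ 2) k X (((X ^ 2 : ℕ) : ℝ) ^ (1 / 3 + η))).card : ℝ) <
        δ * X * Pool.Agent.Y882.PX.loc (Polynomial.X ^ 2) k X), ?_, ?_⟩
  · refine h1.trans ?_
    rw [hpow, hpow, hpow]
    have hmax : max (2 * (1 : ℝ) / 3) (1 / 3 + η) = 2 / 3 := by
      rw [max_eq_left (by linarith)]
      norm_num
    rw [hmax]
    have h2 : (X : ℝ) ^ (2 * (2 / 3 + η)) ≤ (X : ℝ) ^ (5 / 3 + ε / 2) :=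
      Real.rpow_le_rpow_of_exponent_le hX1r (by linarith)
    have h3 : (((X ^ 2 : ℕ) : ℝ) + (X : ℝ) ^ (2 * (4 * (1 / 3 + η)))) / X * (X : ℝ) ^ (2 * η) ≤ 2 * (X : ℝ) ^ (5 / 3 + ε / 2) := by
      have h4 : ((X ^ 2 : ℕ) : ℝ) ≤ (X : ℝ) ^ (2 * (4 * (1 / 3 + η))) := by
        push_cast
        rw [← Real.rpow_natCast]
        apply Real.rpow_le_rpow_of_exponent_le hX1r
        push_cast
        linarith
      have h5 : (((X ^ 2 : ℕ) : ℝ) + (X : ℝ) ^ (2 * (4 * (1 / 3 + η)))) / X ≤ 2 * (X : ℝ) ^ (2 * (4 * (1 / 3 + η)) - 1) := by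
        rw [div_le_iff₀ hX0]
        have h6 : (X : ℝ) ^ (2 * (4 * (1 / 3 + η)) - 1) * X = (X : ℝ) ^ (2 * (4 * (1 / 3 + η))) := by
          nth_rewrite 2 [← Real.rpow_one (X : ℝ)]
          rw [← Real.rpow_add hX0]
          congr 1
          ring
        rw [mul_assoc, h6]
        linarith
      calc _ ≤ 2 * (X : ℝ) ^ (2 * (4 * (1 / 3 + η)) - 1) * (X : ℝ) ^ (2 * η) :=
            mul_le_mul_of_nonneg_right h5 (by positivity)
        _ = 2 * (X : ℝ) ^ (2 * (4 * (1 / 3 + η)) - 1 + 2 * η) := by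
            rw [mul_assoc, ← Real.rpow_add hX0]
        _ ≤ _ := by
            apply mul_le_mul_of_nonneg_left _ (by norm_num)
            apply Real.rpow_le_rpow_of_exponent_le hX1r
            linarith
    calc _ ≤ (X : ℝ) ^ (5 / 3 + ε / 2) + 2 * (X : ℝ) ^ (5 / 3 + ε / 2) := add_le_add h2 h3
      _ = 3 * (X : ℝ) ^ (5 / 3 + ε / 2) := by ring
      _ ≤ (X : ℝ) ^ (ε / 2) * (X : ℝ) ^ (5 / 3 + ε / 2) := mul_le_mul_of_nonneg_right e1 (by positivity)
      _ = _ := by
          rw [← Real.rpow_add hX0]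
          congr 1
          ring
  · intro a ha hE
    rw [mem_filter, not_and, not_lt] at hE
    have h2 := abs_le.1 ha
    have h3 := hE (by
      rw [mem_Icc]
      push_cast
      exact ⟨h2.1, h2.2⟩)
    have hloc : Pool.Agent.Y882.PX.loc (Polynomial.X ^ 2) a X = dens a X := by
      unfold Pool.Agent.Y882.PX.loc dens
      apply prod_congr rfl
      intro p _
      rw [rho_eq, Zq_ro]
    rw [hloc, mul_assoc] at h3
    refine h3.trans ?_
    apply Nat.cast_le.2
    apply card_le_card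
    intro n hn
    unfold Pool.Agent.Y882.PY.goodz at hn
    rw [mem_filter, Polynomial.eval_pow, Polynomial.eval_X] at hn
    obtain ⟨n1, n2, n3⟩ := hn
    unfold GS
    rw [mem_filter]
    refine ⟨n1, ?_, ?_, fun h => absurd h (by simp)⟩
    · unfold qv
      have h4 : (1 : ℤ) < (((n : ℤ) ^ 2 + a).natAbs : ℤ) := by
        rw [Int.natCast_natAbs]
        exact n2
      exact_mod_cast h4
    · intro _ q hq hqd
      have h4 := n3 q hq (by
        rw [Int.natCast_dvd]
        exact hqd)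
      rw [hpow] at h4
      have h5 : (2 * X ^ 2 : ℝ) < (q : ℝ) ^ 3 := by
        calc (2 * X ^ 2 : ℝ) < 3 * (X : ℝ) ^ 2 := by
              have : 0 < (X : ℝ) ^ 2 := by positivity
              linarith
          _ ≤ (X : ℝ) ^ (6 * η) * (X : ℝ) ^ 2 := mul_le_mul_of_nonneg_right e2 (by positivity)
          _ = ((X : ℝ) ^ (2 * (1 / 3 + η))) ^ 3 := by
              rw [← Real.rpow_natCast, ← Real.rpow_natCast, ← Real.rpow_add hX0, ← Real.rpow_mul hX0.le]
              congr 1
              push_cast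
              ring
          _ ≤ _ := pow_le_pow_left₀ (by positivity) h4 3
      exact_mod_cast h5

open Classical in
theorem fixed (a : ℤ) (ha : ¬ IsSquare (-a)) : ∃ δ : ℝ, 0 < δ ∧ ∃ X₀ : ℕ, ∀ X : ℕ, X₀ ≤ X →
    δ * (X / Real.log X) ≤ ((GS true X a).card : ℝ) := by
  have hc := Pool.Agent.Y882.KW.cond_A (3 / 4) (8 / 9) (by norm_num) (by norm_num) (by norm_num)
  obtain ⟨δ, hδ, X0, H⟩ := Pool.Agent.Y882.MG.finAll a ha 3 (3 / 4) (3 / 4 / 4) (24 / 25 * (3 / 4)) (8 / 9)
      (2001 / 1000) (by norm_num) (by norm_num) (by norm_num) (by norm_num) (by norm_num) (by norm_num)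
      (by norm_num) (by norm_num) hc (by norm_num) (by norm_num) 1 (1 / 4) (by norm_num) le_rfl (by norm_num)
  have ev1 : ∀ᶠ X : ℕ in atTop, (3 : ℝ) ≤ (X : ℝ) ^ (1 / 48 : ℝ) :=
    ((tendsto_rpow_atTop (by norm_num)).comp tendsto_natCast_atTop_atTop).eventually_ge_atTop _
  have ev2 : ∀ᶠ X : ℕ in atTop, (2 : ℝ) ≤ (X : ℝ) ^ (1 / 4 : ℝ) :=
    ((tendsto_rpow_atTop (by norm_num)).comp tendsto_natCast_atTop_atTop).eventually_ge_atTop _
  have ev3 : ∀ᶠ X : ℕ in atTop, ∀ n : ℕ, X ≤ n → 2 ≤ qv a n := by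
    filter_upwards [eventually_ge_atTop (a.natAbs + 2)] with X hX n hn
    unfold qv
    have h1 : (a.natAbs : ℤ) + 2 ≤ n := by exact_mod_cast hX.trans hn
    have h2 : (2 : ℤ) ≤ (n : ℤ) ^ 2 + a := by
      have h3 : -(a.natAbs : ℤ) ≤ a := by
        rw [Int.natCast_natAbs]
        exact neg_abs_le a
      nlinarith
    omega
  obtain ⟨X1, hX1⟩ := eventually_atTop.1 (ev1.and (ev2.and (eventually_ge_atTop 3)))
  obtain ⟨X2, hX2⟩ := eventually_atTop.1 ev3
  have ev4 : ∀ᶠ X : ℕ in atTop, (X2 : ℝ) ≤ δ / 2 * X / Real.log X := by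
    have h1 : Tendsto (fun x : ℝ => Real.log x / x) atTop (nhds 0) := by
      have := Real.isLittleO_log_id_atTop.tendsto_div_nhds_zero
      simpa using this
    have h2 := h1.eventually_le_const (show (0 : ℝ) < δ / 2 / (X2 + 1) by positivity)
    have h3 := tendsto_natCast_atTop_atTop.eventually (h2.and (eventually_gt_atTop (1 : ℝ)))
    filter_upwards [h3] with X hX
    obtain ⟨h4, h5⟩ := hX
    have h6 : 0 < Real.log X := Real.log_pos h5
    rw [div_le_div_iff₀ (by linarith) (by positivity)] at h4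
    rw [le_div_iff₀ h6]
    nlinarith
  obtain ⟨X3, hX3⟩ := eventually_atTop.1 ev4
  refine ⟨δ / 6, by positivity, 2 * (max (max X0 X1) X3) + 2, ?_⟩
  intro X hX
  obtain ⟨W, hW⟩ : ∃ W, W = X / 2 := ⟨_, rfl⟩
  have hWm : max (max X0 X1) X3 ≤ W := by omega
  have hW0 : X0 ≤ W := ((le_max_left _ _).trans (le_max_left _ _)).trans hWm
  have hW1 : X1 ≤ W := ((le_max_right _ _).trans (le_max_left _ _)).trans hWm
  have hW3 : X3 ≤ W := (le_max_right _ _).trans hWm
  obtain ⟨e1, e2, e3⟩ := hX1 W hW1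
  have e4 := hX3 W hW3
  have hWr : (3 : ℝ) ≤ W := by exact_mod_cast e3
  have hWp : (0 : ℝ) < W := by linarith
  have h1 := H W hW0
  -- a good position
  obtain ⟨N, hN1, hN2⟩ : ∃ N ∈ Icc 1 W, ¬ ((Pool.Agent.Y882.SI.gset a 3 ((W : ℝ) ^ (3 / 4 / 4 : ℝ)) N ⌊(W : ℝ) ^ (1 : ℝ)⌋₊).card : ℝ) <
      δ * (W : ℝ) ^ (1 : ℝ) / Real.log W := by
    by_contra hcon
    push Not at hcon
    rw [filter_true_of_mem (fun N hN => hcon N hN), Nat.card_Icc, Nat.add_sub_cancel] at h1
    have h2 : (W : ℝ) ^ (2 * (3 / 4) - 1 + 1 / 4 : ℝ) * (W : ℝ) ^ (1 / 4 : ℝ) = W := by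
      rw [← Real.rpow_add hWp]
      norm_num
    have h3 : (0 : ℝ) < (W : ℝ) ^ (2 * (3 / 4) - 1 + 1 / 4 : ℝ) := by positivity
    nlinarith
  rw [Real.rpow_one, Nat.floor_natCast, not_lt] at hN2
  rw [mem_Icc] at hN1
  -- the values in (N, N + W]
  obtain ⟨G, hG⟩ : ∃ G, G = Pool.Agent.Y882.SI.gset a 3 ((W : ℝ) ^ (3 / 4 / 4 : ℝ)) N W := ⟨_, rfl⟩
  rw [← hG] at hN2
  have hsub : G.filter (fun n => X2 ≤ n) ⊆ GS true X a := by
    intro n hn
    rw [mem_filter] at hn
    obtain ⟨hn1, hn2⟩ := hn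
    rw [hG] at hn1
    unfold Pool.Agent.Y882.SI.gset at hn1
    rw [mem_filter, mem_Ioc] at hn1
    obtain ⟨⟨n1, n2⟩, n3, n4⟩ := hn1
    unfold GS
    rw [mem_filter, mem_Icc]
    refine ⟨⟨by omega, by omega⟩, hX2 X2 le_rfl n hn2, fun h => absurd h (by simp), fun _ => ⟨n3, ?_⟩⟩
    intro q hq hqd
    have h4 := n4 q hq (by
      rw [Int.natCast_dvd]
      exact hqd)
    refine le_trans ?_ h4
    have hX3' : (X : ℝ) ≤ 3 * W := by
      have : X ≤ 3 * W := by omega
      exact_mod_cast this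
    calc (X : ℝ) ^ (1 / 6 : ℝ) ≤ (3 * W : ℝ) ^ (1 / 6 : ℝ) := Real.rpow_le_rpow (by positivity) hX3' (by norm_num)
      _ = (3 : ℝ) ^ (1 / 6 : ℝ) * (W : ℝ) ^ (1 / 6 : ℝ) := Real.mul_rpow (by norm_num) hWp.le
      _ ≤ 3 * (W : ℝ) ^ (1 / 6 : ℝ) := by
          apply mul_le_mul_of_nonneg_right _ (by positivity)
          calc (3 : ℝ) ^ (1 / 6 : ℝ) ≤ (3 : ℝ) ^ (1 : ℝ) := Real.rpow_le_rpow_of_exponent_le (by norm_num) (by norm_num)
            _ = 3 := Real.rpow_one _
      _ ≤ (W : ℝ) ^ (1 / 48 : ℝ) * (W : ℝ) ^ (1 / 6 : ℝ) := mul_le_mul_of_nonneg_right e1 (by positivity)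
      _ = _ := by
          rw [← Real.rpow_add hWp]
          norm_num
  have h2 : (G.card : ℝ) ≤ (GS true X a).card + X2 := by
    have h3 : (G.filter (fun n => X2 ≤ n)).card + (G.filter (fun n => ¬ X2 ≤ n)).card = G.card :=
      card_filter_add_card_filter_not _
    have h4 := card_le_card hsub
    have h5 : (G.filter (fun n => ¬ X2 ≤ n)).card ≤ X2 := by
      have h6 : G.filter (fun n => ¬ X2 ≤ n) ⊆ range X2 := by
        intro n hn
        rw [mem_filter] at hn
        rw [mem_range]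
        omega
      have := card_le_card h6
      rwa [card_range] at this
    have h6 : G.card ≤ (GS true X a).card + X2 := by omega
    exact_mod_cast h6
  have hlW : 0 < Real.log W := Real.log_pos (by linarith)
  have hlX : Real.log W ≤ Real.log X := Real.log_le_log hWp (by exact_mod_cast (by omega : W ≤ X))
  have h3 : (X : ℝ) / Real.log X ≤ 3 * (W / Real.log W) := by
    have hX3' : (X : ℝ) ≤ 3 * W := by
      have : X ≤ 3 * W := by omega
      exact_mod_cast this
    calc (X : ℝ) / Real.log X ≤ (3 * W) / Real.log W := div_le_div₀ (by positivity) hX3' hlW hlX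
      _ = _ := by ring
  have h4 : δ * (W : ℝ) / Real.log W = δ * (W / Real.log W) := by ring
  have h5 : δ / 2 * (W : ℝ) / Real.log W = δ / 2 * (W / Real.log W) := by ring
  rw [h4] at hN2
  rw [h5] at e4
  calc δ / 6 * ((X : ℝ) / Real.log X) ≤ δ / 6 * (3 * (W / Real.log W)) := mul_le_mul_of_nonneg_left h3 (by positivity)
    _ = δ * (W / Real.log W) - δ / 2 * (W / Real.log W) := by ring
    _ ≤ _ := by linarith

/-- large prime factors: at most two of them -/
lemma two_factors {n B : ℕ} (hn : 2 ≤ n) (hnB : n ≤ B) (h : ∀ q : ℕ, q.Prime → q ∣ n → B < q ^ 3) :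
    n.primeFactorsList.length ≤ 2 := by
  have hprod := Nat.prod_primeFactorsList (show n ≠ 0 by omega)
  have hmem : ∀ q ∈ n.primeFactorsList, B < q ^ 3 := fun q hq =>
    h q (Nat.prime_of_mem_primeFactorsList hq) (Nat.dvd_of_mem_primeFactorsList hq)
  have hpos : ∀ q ∈ n.primeFactorsList, 1 ≤ q := fun q hq => (Nat.prime_of_mem_primeFactorsList hq).one_le
  rcases hl : n.primeFactorsList with _ | ⟨a, _ | ⟨b, _ | ⟨c, l⟩⟩⟩
  · simp
  · simp
  · simp
  · exfalso
    rw [hl] at hprod hmem hpos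
    have ha := hmem a (by simp)
    have hb := hmem b (by simp)
    have hc := hmem c (by simp)
    have h1 : 1 ≤ l.prod := List.one_le_prod (fun q hq => hpos q (by simp [hq]))
    have h2 : a * (b * c) ≤ n := by
      rw [← hprod, List.prod_cons, List.prod_cons, List.prod_cons]
      calc a * (b * c) = a * (b * (c * 1)) := by ring
        _ ≤ a * (b * (c * l.prod)) := by gcongr
    have h3 : (a * (b * c)) ^ 3 ≤ B ^ 3 := Nat.pow_le_pow_left (h2.trans hnB) 3
    have h4 : B * (B * B) < a ^ 3 * (b ^ 3 * c ^ 3) :=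
      Nat.mul_lt_mul'' ha (Nat.mul_lt_mul'' hb hc)
    have h5 : (a * (b * c)) ^ 3 = a ^ 3 * (b ^ 3 * c ^ 3) := by ring
    have h6 : B ^ 3 = B * (B * B) := by ring
    omega

open Classical in
/-- **The values `n ^ 2 + a` with one prime factor from a thin set.** For every `ε > 0` there are `C > 0` and ONE set `Q` of primes with
at most `C log ^ 3 x` elements up to `x`, for all `x ≥ 2`, such that

(1) there is `c > 0` such that for all large `X` and all integers `|a| ≤ X ^ 2` with at most `X ^ (5/3 + ε)` exceptions: at least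
`c X dens a X` of the `n ≤ X` are such that `|n ^ 2 + a|` is a prime, or there is `q ∈ Q`, `q > X ^ (2/3)`, such that for at least
`c X dens a X / q` of the `n ≤ X` the number `|n ^ 2 + a|` is `q` times a prime `≥ q`; here `dens a X ≥ c / log ^ 2 X` for all `a`;

(2) for EVERY integer `a` for which `-a` is not a square there is `c > 0` such that for all large `X`: at least `c X / log X` of the
`n ≤ X` are such that `|n ^ 2 + a|` is a prime, or there is `q ∈ Q`, `q ≥ X ^ (1/6)`, such that for at least `c X / (q log X)` of the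
`n ≤ X` the number `|n ^ 2 + a|` is `q` times a number with at most two prime factors, all `≥ q`. -/
theorem result : ∀ ε : ℝ, 0 < ε → ∃ C : ℝ, 0 < C ∧ ∃ Q : Set ℕ, (∀ q ∈ Q, q.Prime) ∧
    (∀ x : ℕ, 2 ≤ x → {q ∈ Q | q ≤ x}.Finite ∧ ({q ∈ Q | q ≤ x}.ncard : ℝ) ≤ C * Real.log x ^ 3) ∧
    (∃ c : ℝ, 0 < c ∧ ∃ X₀ : ℕ, ∀ X : ℕ, X₀ ≤ X → (∀ a : ℤ, c / Real.log X ^ 2 ≤ dens a X) ∧
      ∃ E : Finset ℤ, (E.card : ℝ) ≤ (X : ℝ) ^ (5 / 3 + ε) ∧ ∀ a : ℤ, |a| ≤ (X : ℤ) ^ 2 → a ∉ E →
        c * (X * dens a X) ≤ primeValues a X ∨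
        ∃ q ∈ Q, (X : ℝ) ^ (2 / 3 : ℝ) < q ∧ c * (X * dens a X / q) ≤ withFactor a q 1 X) ∧
    (∀ a : ℤ, ¬ IsSquare (-a) → ∃ c : ℝ, 0 < c ∧ ∃ X₀ : ℕ, ∀ X : ℕ, X₀ ≤ X →
        c * (X / Real.log X) ≤ primeValues a X ∨
        ∃ q ∈ Q, (X : ℝ) ^ (1 / 6 : ℝ) ≤ q ∧ c * (X / (q * Real.log X)) ≤ withFactor a q 2 X) := by
  intro ε hε
  obtain ⟨δ, hδ, X₁, hfam⟩ := family ε hε
  obtain ⟨cV, hcV, hV⟩ := VZ_low 2 (by norm_num)
  set J : Bool → ℕ → ℤ → Finset ℕ := fun t X a => (GS t X a).filter (fun n => ¬ (qv a n).Prime) with hJdef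
  have hJ : ∀ t X a n, n ∈ J t X a → 1 ≤ n ∧ n ≤ X ∧ ¬ (qv a n).Prime ∧ 2 ≤ qv a n ∧
      ∀ q : ℕ, q.Prime → q ∣ qv a n → (X : ℝ) ^ (1 / 6 : ℝ) ≤ q := by
    intro t X a n hn
    rw [hJdef] at hn
    simp only at hn
    unfold GS at hn
    rw [mem_filter, mem_filter, mem_Icc] at hn
    obtain ⟨⟨⟨n1, n2⟩, n3, n4, n5⟩, n6⟩ := hn
    refine ⟨n1, n2, n6, n3, ?_⟩
    intro q hq hqd
    rcases t with _ | _
    · have h1 := n4 rfl q hq hqd
      have hX1 : (1 : ℝ) ≤ X := by exact_mod_cast n1.trans n2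
      have h2 : (X : ℝ) ≤ (q : ℝ) ^ 3 := by
        have h3 : X ≤ q ^ 3 := by nlinarith
        exact_mod_cast h3
      calc (X : ℝ) ^ (1 / 6 : ℝ) ≤ (X : ℝ) ^ (1 / 3 : ℝ) := Real.rpow_le_rpow_of_exponent_le hX1 (by norm_num)
        _ ≤ ((q : ℝ) ^ 3) ^ (1 / 3 : ℝ) := Real.rpow_le_rpow (by linarith) h2 (by norm_num)
        _ = q := by
            rw [← Real.rpow_natCast, ← Real.rpow_mul (by positivity)]
            norm_num
    · exact (n5 rfl).2 q hq hqd
  obtain ⟨C, hC, Q, hQ, hQc, c', hc', X₂, hthin⟩ := quad_thin J hJ (δ * cV / 2) (by positivity)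
  refine ⟨C, hC, Q, hQ, hQc, ?_, ?_⟩
  · obtain ⟨c, hc⟩ : ∃ c, c = min cV (min (δ / 2) (c' * δ / 2)) := ⟨_, rfl⟩
    have hc0 : 0 < c := by rw [hc]; positivity
    have hc1 : c ≤ cV := by rw [hc]; exact min_le_left _ _
    have hc2 : c ≤ δ / 2 := by rw [hc]; exact (min_le_right _ _).trans (min_le_left _ _)
    have hc3 : c ≤ c' * δ / 2 := by rw [hc]; exact (min_le_right _ _).trans (min_le_right _ _)
    refine ⟨c, hc0, max (max X₁ X₂) 3, ?_⟩
    intro X hX
    have hX1 : X₁ ≤ X := ((le_max_left _ _).trans (le_max_left _ _)).trans hX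
    have hX2 : X₂ ≤ X := ((le_max_right _ _).trans (le_max_left _ _)).trans hX
    have hX3 : 3 ≤ X := (le_max_right _ _).trans hX
    have hX0 : (0 : ℝ) < X := by exact_mod_cast (by omega : 0 < X)
    have hlX : 0 < Real.log X := Real.log_pos (by exact_mod_cast (by omega : 1 < X))
    have hdens : ∀ a : ℤ, cV / Real.log X ^ 2 ≤ dens a X := by
      intro a
      rw [dens_eq]
      exact hV X (by omega) (Zq a) (Zq_sys a)
    refine ⟨fun a => le_trans (div_le_div_of_nonneg_right hc1 (by positivity)) (hdens a), ?_⟩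
    obtain ⟨E, hE1, hE2⟩ := hfam X hX1
    refine ⟨E, hE1, fun a ha haE => ?_⟩
    have h1 := hE2 a ha haE
    have hd0 : 0 < dens a X := lt_of_lt_of_le (by positivity) (hdens a)
    obtain ⟨Y, hY⟩ : ∃ Y, Y = X * dens a X := ⟨_, rfl⟩
    have hY0 : 0 < Y := by rw [hY]; positivity
    rw [← hY] at h1
    have hsplit : ((GS false X a).filter (fun n => (qv a n).Prime)).card +
        ((GS false X a).filter (fun n => ¬ (qv a n).Prime)).card = (GS false X a).card :=
      card_filter_add_card_filter_not _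
    by_cases hcase : ((GS false X a).card : ℝ) / 2 ≤ (((GS false X a).filter (fun n => (qv a n).Prime)).card : ℝ)
    · left
      rw [← hY]
      have h2 : (((GS false X a).filter (fun n => (qv a n).Prime)).card : ℝ) ≤ primeValues a X := by
        apply Nat.cast_le.2
        unfold primeValues
        apply card_le_card
        intro n hn
        unfold GS at hn
        rw [mem_filter, mem_filter] at hn
        rw [mem_filter]
        exact ⟨hn.1.1, hn.2⟩
      nlinarith
    · right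
      push Not at hcase
      have h2 : ((GS false X a).card : ℝ) / 2 ≤ ((J false X a).card : ℝ) := by
        have h3 : (((GS false X a).filter (fun n => (qv a n).Prime)).card : ℝ) + ((J false X a).card : ℝ) =
            ((GS false X a).card : ℝ) := by exact_mod_cast hsplit
        linarith
      have h3 : δ / 2 * Y ≤ ((J false X a).card : ℝ) := by linarith
      obtain ⟨q, hq, hqJ⟩ := hthin X hX2 a ha false (by
        refine le_trans ?_ h3
        rw [hY]
        calc δ * cV / 2 * (X / Real.log X ^ 2) = δ / 2 * (X * (cV / Real.log X ^ 2)) := by ring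
          _ ≤ _ := by
              apply mul_le_mul_of_nonneg_left _ (by positivity)
              exact mul_le_mul_of_nonneg_left (hdens a) hX0.le)
      have hq0 : (0 : ℝ) < q := by exact_mod_cast (hQ q hq).pos
      have h4 : 0 < (((J false X a).filter (fun n => (qv a n).minFac = q)).card : ℝ) := by
        refine lt_of_lt_of_le ?_ hqJ
        have : 0 < ((J false X a).card : ℝ) := lt_of_lt_of_le (by positivity) h3
        positivity
      have hvals : ∀ n ∈ (J false X a).filter (fun n => (qv a n).minFac = q), n ∈ Icc 1 X ∧ 2 * X ^ 2 < q ^ 3 ∧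
          ∃ m : ℕ, 2 ≤ m ∧ qv a n = q * m ∧ m.primeFactorsList.length ≤ 1 ∧ ∀ p : ℕ, p.Prime → p ∣ m → q ≤ p := by
        intro n hn
        rw [mem_filter] at hn
        obtain ⟨hn1, hn2⟩ := hn
        rw [hJdef] at hn1
        simp only at hn1
        unfold GS at hn1
        rw [mem_filter, mem_filter, mem_Icc] at hn1
        obtain ⟨⟨⟨n1, n2⟩, n3, n4, -⟩, n6⟩ := hn1
        have hqd : q ∣ qv a n := by rw [← hn2]; exact Nat.minFac_dvd _
        refine ⟨mem_Icc.2 ⟨n1, n2⟩, n4 rfl q (hQ q hq) hqd, ?_⟩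
        have hle : qv a n ≤ 2 * X ^ 2 := by
          unfold qv
          have h6 : |(n : ℤ) ^ 2 + a| ≤ 2 * (X : ℤ) ^ 2 := by
            have h7 : (n : ℤ) ^ 2 ≤ (X : ℤ) ^ 2 := by
              apply pow_le_pow_left₀ (by positivity)
              exact_mod_cast n2
            calc |(n : ℤ) ^ 2 + a| ≤ |(n : ℤ) ^ 2| + |a| := abs_add_le _ _
              _ ≤ (X : ℤ) ^ 2 + (X : ℤ) ^ 2 := by
                  rw [abs_of_nonneg (by positivity : (0 : ℤ) ≤ (n : ℤ) ^ 2)]
                  linarith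
              _ = _ := by ring
          have h7 : (((n : ℤ) ^ 2 + a).natAbs : ℤ) ≤ ((2 * X ^ 2 : ℕ) : ℤ) := by
            rw [Int.natCast_natAbs]
            push_cast
            exact h6
          exact_mod_cast h7
        have hlen := two_factors n3 hle (n4 rfl)
        have hsq := Nat.minFac_sq_le_self (by omega) n6
        rw [hn2] at hsq
        obtain ⟨m, hm⟩ := hqd
        have hqp := hQ q hq
        have hqm : q ≤ m := by
          rw [hm, pow_two] at hsq
          exact Nat.le_of_mul_le_mul_left hsq hqp.pos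
        have hm0 : m ≠ 0 := by
          have := hqp.pos
          omega
        refine ⟨m, hqp.two_le.trans hqm, hm, ?_, ?_⟩
        · have h1 := (Nat.perm_primeFactorsList_mul hqp.ne_zero hm0).length_eq
          rw [← hm, List.length_append, Nat.primeFactorsList_prime hqp, List.length_singleton] at h1
          omega
        · intro p hp hpm
          rw [← hn2]
          exact Nat.minFac_le_of_dvd hp.two_le (hm ▸ Dvd.dvd.mul_left hpm q)
      refine ⟨q, hq, ?_, ?_⟩
      · obtain ⟨n, hn⟩ := card_pos.1 (by exact_mod_cast h4)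
        have h5 := (hvals n hn).2.1
        have h6 : (X : ℝ) ^ 2 < (q : ℝ) ^ 3 := by
          have : X ^ 2 < q ^ 3 := by nlinarith
          exact_mod_cast this
        calc (X : ℝ) ^ (2 / 3 : ℝ) = ((X : ℝ) ^ 2) ^ (1 / 3 : ℝ) := by
              rw [← Real.rpow_natCast, ← Real.rpow_mul hX0.le]
              norm_num
          _ < ((q : ℝ) ^ 3) ^ (1 / 3 : ℝ) := Real.rpow_lt_rpow (by positivity) h6 (by norm_num)
          _ = q := by
              rw [← Real.rpow_natCast, ← Real.rpow_mul (by positivity)]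
              norm_num
      · have h5 : (((J false X a).filter (fun n => (qv a n).minFac = q)).card : ℝ) ≤ withFactor a q 1 X := by
          apply Nat.cast_le.2
          unfold withFactor
          apply card_le_card
          intro n hn
          obtain ⟨m1, -, m2⟩ := hvals n hn
          rw [mem_filter]
          exact ⟨m1, m2⟩
        refine le_trans ?_ (hqJ.trans h5)
        rw [← hY]
        calc c * (Y / q) ≤ c' * δ / 2 * (Y / q) := mul_le_mul_of_nonneg_right hc3 (by positivity)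
          _ = c' * (δ / 2 * Y) / q := by ring
          _ ≤ c' * ((J false X a).card : ℝ) / q :=
              div_le_div_of_nonneg_right (mul_le_mul_of_nonneg_left h3 hc'.le) hq0.le
  · intro a ha
    obtain ⟨δa, hδa, X₃, hfix⟩ := fixed a ha
    have ev1 : ∀ᶠ X : ℕ in atTop, δ * cV / δa ≤ Real.log X :=
      (Real.tendsto_log_atTop.comp tendsto_natCast_atTop_atTop).eventually_ge_atTop _
    have ev2 : ∀ᶠ X : ℕ in atTop, |a| ≤ (X : ℤ) ^ 2 := by
      filter_upwards [eventually_ge_atTop (a.natAbs + 1)] with X hX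
      have h1 : (a.natAbs : ℤ) + 1 ≤ X := by exact_mod_cast hX
      rw [Int.natCast_natAbs] at h1
      nlinarith [abs_nonneg a]
    obtain ⟨X₄, hX₄⟩ := eventually_atTop.1 (ev1.and ev2)
    obtain ⟨c, hc⟩ : ∃ c, c = min (δa / 2) (c' * δa / 2) := ⟨_, rfl⟩
    have hc0 : 0 < c := by rw [hc]; positivity
    have hc2 : c ≤ δa / 2 := by rw [hc]; exact min_le_left _ _
    have hc3 : c ≤ c' * δa / 2 := by rw [hc]; exact min_le_right _ _
    refine ⟨c, hc0, max (max X₂ X₃) (max X₄ 3), ?_⟩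
    intro X hX
    have hX2 : X₂ ≤ X := ((le_max_left _ _).trans (le_max_left _ _)).trans hX
    have hX3 : X₃ ≤ X := ((le_max_right _ _).trans (le_max_left _ _)).trans hX
    have hX4 : X₄ ≤ X := ((le_max_left _ _).trans (le_max_right _ _)).trans hX
    have hX5 : 3 ≤ X := ((le_max_right _ _).trans (le_max_right _ _)).trans hX
    obtain ⟨e1, e2⟩ := hX₄ X hX4
    have hX0 : (0 : ℝ) < X := by exact_mod_cast (by omega : 0 < X)
    have hlX : 0 < Real.log X := Real.log_pos (by exact_mod_cast (by omega : 1 < X))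
    have h1 := hfix X hX3
    obtain ⟨Y, hY⟩ : ∃ Y, Y = X / Real.log X := ⟨_, rfl⟩
    have hY0 : 0 < Y := by rw [hY]; positivity
    rw [← hY] at h1
    have hsplit : ((GS true X a).filter (fun n => (qv a n).Prime)).card +
        ((GS true X a).filter (fun n => ¬ (qv a n).Prime)).card = (GS true X a).card :=
      card_filter_add_card_filter_not _
    by_cases hcase : ((GS true X a).card : ℝ) / 2 ≤ (((GS true X a).filter (fun n => (qv a n).Prime)).card : ℝ)
    · left
      rw [← hY]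
      have h2 : (((GS true X a).filter (fun n => (qv a n).Prime)).card : ℝ) ≤ primeValues a X := by
        apply Nat.cast_le.2
        unfold primeValues
        apply card_le_card
        intro n hn
        unfold GS at hn
        rw [mem_filter, mem_filter] at hn
        rw [mem_filter]
        exact ⟨hn.1.1, hn.2⟩
      nlinarith
    · right
      push Not at hcase
      have h2 : ((GS true X a).card : ℝ) / 2 ≤ ((J true X a).card : ℝ) := by
        have h3 : (((GS true X a).filter (fun n => (qv a n).Prime)).card : ℝ) + ((J true X a).card : ℝ) =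
            ((GS true X a).card : ℝ) := by exact_mod_cast hsplit
        linarith
      have h3 : δa / 2 * Y ≤ ((J true X a).card : ℝ) := by linarith
      obtain ⟨q, hq, hqJ⟩ := hthin X hX2 a e2 true (by
        refine le_trans ?_ h3
        rw [hY]
        rw [div_le_iff₀ hδa] at e1
        have h5 : δ * cV / 2 ≤ δa / 2 * Real.log X := by linarith
        calc δ * cV / 2 * (X / Real.log X ^ 2) ≤ δa / 2 * Real.log X * (X / Real.log X ^ 2) :=
              mul_le_mul_of_nonneg_right h5 (by positivity)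
          _ = _ := by field_simp)
      have hq0 : (0 : ℝ) < q := by exact_mod_cast (hQ q hq).pos
      have h4 : 0 < (((J true X a).filter (fun n => (qv a n).minFac = q)).card : ℝ) := by
        refine lt_of_lt_of_le ?_ hqJ
        have : 0 < ((J true X a).card : ℝ) := lt_of_lt_of_le (by positivity) h3
        positivity
      have hvals : ∀ n ∈ (J true X a).filter (fun n => (qv a n).minFac = q), n ∈ Icc 1 X ∧ (X : ℝ) ^ (1 / 6 : ℝ) ≤ q ∧
          ∃ m : ℕ, 2 ≤ m ∧ qv a n = q * m ∧ m.primeFactorsList.length ≤ 2 ∧ ∀ p : ℕ, p.Prime → p ∣ m → q ≤ p := by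
        intro n hn
        rw [mem_filter] at hn
        obtain ⟨hn1, hn2⟩ := hn
        rw [hJdef] at hn1
        simp only at hn1
        unfold GS at hn1
        rw [mem_filter, mem_filter, mem_Icc] at hn1
        obtain ⟨⟨⟨n1, n2⟩, n3, -, n5⟩, n6⟩ := hn1
        have hqd : q ∣ qv a n := by rw [← hn2]; exact Nat.minFac_dvd _
        refine ⟨mem_Icc.2 ⟨n1, n2⟩, (n5 rfl).2 q (hQ q hq) hqd, ?_⟩
        have hlen := (n5 rfl).1
        have hsq := Nat.minFac_sq_le_self (by omega) n6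
        rw [hn2] at hsq
        obtain ⟨m, hm⟩ := hqd
        have hqp := hQ q hq
        have hqm : q ≤ m := by
          rw [hm, pow_two] at hsq
          exact Nat.le_of_mul_le_mul_left hsq hqp.pos
        have hm0 : m ≠ 0 := by
          have := hqp.pos
          omega
        refine ⟨m, hqp.two_le.trans hqm, hm, ?_, ?_⟩
        · have h1 := (Nat.perm_primeFactorsList_mul hqp.ne_zero hm0).length_eq
          rw [← hm, List.length_append, Nat.primeFactorsList_prime hqp, List.length_singleton] at h1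
          omega
        · intro p hp hpm
          rw [← hn2]
          exact Nat.minFac_le_of_dvd hp.two_le (hm ▸ Dvd.dvd.mul_left hpm q)
      refine ⟨q, hq, ?_, ?_⟩
      · obtain ⟨n, hn⟩ := card_pos.1 (by exact_mod_cast h4)
        exact (hvals n hn).2.1
      · have h5 : (((J true X a).filter (fun n => (qv a n).minFac = q)).card : ℝ) ≤ withFactor a q 2 X := by
          apply Nat.cast_le.2
          unfold withFactor
          apply card_le_card
          intro n hn
          obtain ⟨m1, -, m2⟩ := hvals n hn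
          rw [mem_filter]
          exact ⟨m1, m2⟩
        refine le_trans ?_ (hqJ.trans h5)
        calc c * (X / (q * Real.log X)) = c * (Y / q) := by
              rw [hY]
              field_simp
          _ ≤ c' * δa / 2 * (Y / q) := mul_le_mul_of_nonneg_right hc3 (by positivity)
          _ = c' * (δa / 2 * Y) / q := by ring
          _ ≤ c' * ((J true X a).card : ℝ) / q :=
              div_le_div_of_nonneg_right (mul_le_mul_of_nonneg_left h3 hc'.le) hq0.le

end Pool.Agent.Results.MP_391708_nt.ThinFactors
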